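import Mathlib

/-! The measure algebra of a compact abelian group, as the dual of `C(G, ℂ)`. -/

namespace Pool.Agent.H.Cortex

open scoped TensorProduct
open Filter Topology

variable {G : Type} [AddCommGroup G] [TopologicalSpace G] [IsTopologicalAddGroup G]
  [CompactSpace G]

/-- `(x, y) ↦ f (x + y)`. -/
noncomputable def addFn (f : C(G, ℂ)) : C(G × G, ℂ) := f.comp ⟨fun p => p.1 + p.2, continuous_add⟩

/-- `x ↦ ∫ F (x, y) dν(y)`. -/
noncomputable def slice (ν : C(G, ℂ) →L[ℂ] ℂ) (F : C(G × G, ℂ)) : C(G, ℂ) :=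
  ⟨fun x => ν (F.curry x), ν.continuous.comp F.curry.continuous⟩

omit [AddCommGroup G] [IsTopologicalAddGroup G] in
lemma norm_slice_le (ν : C(G, ℂ) →L[ℂ] ℂ) (F : C(G × G, ℂ)) : ‖slice ν F‖ ≤ ‖ν‖ * ‖F‖ := by
  refine (ContinuousMap.norm_le _ (by positivity)).2 fun x => ?_
  refine (ν.le_opNorm _).trans (mul_le_mul_of_nonneg_left ?_ (norm_nonneg _))
  exact (ContinuousMap.norm_le _ (norm_nonneg _)).2 fun y => F.norm_coe_le_norm (x, y)

lemma norm_addFn_le (f : C(G, ℂ)) : ‖addFn f‖ ≤ ‖f‖ :=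
  (ContinuousMap.norm_le _ (norm_nonneg _)).2 fun p => f.norm_coe_le_norm _

omit [AddCommGroup G] [IsTopologicalAddGroup G] in
lemma slice_add (ν : C(G, ℂ) →L[ℂ] ℂ) (F F' : C(G × G, ℂ)) :
    slice ν (F + F') = slice ν F + slice ν F' := by
  ext x
  change ν ((F + F').curry x) = ν (F.curry x) + ν (F'.curry x)
  rw [← map_add]; rfl

omit [AddCommGroup G] [IsTopologicalAddGroup G] in
lemma slice_smul (ν : C(G, ℂ) →L[ℂ] ℂ) (c : ℂ) (F : C(G × G, ℂ)) :
    slice ν (c • F) = c • slice ν F := by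
  ext x
  change ν ((c • F).curry x) = c • ν (F.curry x)
  rw [← map_smul]; rfl

/-- Convolution: `(μ * ν) f = ∫∫ f (x + y) dν(y) dμ(x)`. -/
noncomputable def conv (μ ν : C(G, ℂ) →L[ℂ] ℂ) : C(G, ℂ) →L[ℂ] ℂ :=
  LinearMap.mkContinuous
    { toFun := fun f => μ (slice ν (addFn f))
      map_add' := fun f g => by
        rw [← map_add, ← slice_add]; rfl
      map_smul' := fun c f => by
        rw [RingHom.id_apply, ← map_smul, ← slice_smul]; rfl }
    (‖μ‖ * ‖ν‖) (fun f => by
      refine (μ.le_opNorm _).trans ?_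
      rw [mul_assoc]
      exact mul_le_mul_of_nonneg_left ((norm_slice_le _ _).trans
        (mul_le_mul_of_nonneg_left (norm_addFn_le f) (norm_nonneg _))) (norm_nonneg _))

lemma conv_apply (μ ν : C(G, ℂ) →L[ℂ] ℂ) (f : C(G, ℂ)) :
    conv μ ν f = μ (slice ν (addFn f)) := rfl

lemma norm_conv_le (μ ν : C(G, ℂ) →L[ℂ] ℂ) : ‖conv μ ν‖ ≤ ‖μ‖ * ‖ν‖ :=
  LinearMap.mkContinuous_norm_le _ (by positivity) _

omit [AddCommGroup G] [IsTopologicalAddGroup G] in
/-- iterated functional on `C(G × G)` -/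
noncomputable def iter (μ ν : C(G, ℂ) →L[ℂ] ℂ) : C(G × G, ℂ) →L[ℂ] ℂ :=
  LinearMap.mkContinuous
    { toFun := fun F => μ (slice ν F)
      map_add' := fun f g => by rw [← map_add, ← slice_add]
      map_smul' := fun c f => by rw [RingHom.id_apply, ← map_smul, ← slice_smul] }
    (‖μ‖ * ‖ν‖) (fun f => by
      refine (μ.le_opNorm _).trans ?_
      rw [mul_assoc]
      exact mul_le_mul_of_nonneg_left (norm_slice_le _ _) (norm_nonneg _))

omit [AddCommGroup G] [IsTopologicalAddGroup G] in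
lemma fubini [T2Space G] [TotallyDisconnectedSpace G] (μ ν : C(G, ℂ) →L[ℂ] ℂ)
    (F : C(G × G, ℂ)) :
    μ (slice ν F) = ν (slice μ (F.comp ContinuousMap.prodSwap)) := by
  have h : (fun F : C(G × G, ℂ) => iter μ ν F) =
      fun F : C(G × G, ℂ) => iter ν μ (F.comp ContinuousMap.prodSwap) := by
    apply ContinuousMap.denseRange_tensorHom.equalizer (by fun_prop) (by fun_prop)
      (funext fun h ↦ ?_)
    induction h with
    | zero => simp
    | add a b ha hb =>
      simp only [Function.comp, map_add, ContinuousMap.add_comp] at ha hb ⊢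
      rw [ha, hb]
    | tmul f g =>
      simp only [Function.comp, ContinuousMap.tensorHom_tmul]
      change μ (slice ν (f.prodMul g)) = ν (slice μ ((f.prodMul g).comp ContinuousMap.prodSwap))
      have h1 : slice ν (f.prodMul g) = ν g • f := by
        ext x
        change ν ((f.prodMul g).curry x) = _
        have : (f.prodMul g).curry x = f x • g := by ext y; simp
        rw [this, map_smul]; simp [mul_comm]
      have h2 : slice μ ((f.prodMul g).comp ContinuousMap.prodSwap) = μ f • g := by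
        ext x
        change μ (((f.prodMul g).comp ContinuousMap.prodSwap).curry x) = _
        have : ((f.prodMul g).comp ContinuousMap.prodSwap).curry x = g x • f := by
          ext y; simp [mul_comm]
        rw [this, map_smul]; simp [mul_comm]
      rw [h1, h2, map_smul, map_smul]; simp [mul_comm]
  exact congrFun h F

lemma conv_comm [T2Space G] [TotallyDisconnectedSpace G] (μ ν : C(G, ℂ) →L[ℂ] ℂ) :
    conv μ ν = conv ν μ := by
  ext f
  rw [conv_apply, conv_apply, fubini]
  congr 2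
  ext p
  simp [addFn, add_comm]

/-- The measure algebra as a type synonym. -/
def MA (G : Type) [TopologicalSpace G] [CompactSpace G] : Type := C(G, ℂ) →L[ℂ] ℂ

noncomputable instance : NormedAddCommGroup (MA G) :=
  inferInstanceAs (NormedAddCommGroup (C(G, ℂ) →L[ℂ] ℂ))
noncomputable instance : NormedSpace ℂ (MA G) :=
  inferInstanceAs (NormedSpace ℂ (C(G, ℂ) →L[ℂ] ℂ))
instance : CompleteSpace (MA G) := inferInstanceAs (CompleteSpace (C(G, ℂ) →L[ℂ] ℂ))

/-- underlying functional -/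
def MA.fn (μ : MA G) : C(G, ℂ) →L[ℂ] ℂ := μ
/-- element from functional -/
def MA.mk (μ : C(G, ℂ) →L[ℂ] ℂ) : MA G := μ

/-- Dirac mass. -/
noncomputable def dirac (e : G) : MA G := ContinuousMap.evalCLM ℂ e

/-- `x ↦ ∫ f (x + y) dμ(y)`. -/
noncomputable def act (μ : MA G) (f : C(G, ℂ)) : C(G, ℂ) := slice μ.fn (addFn f)

/-- translate -/
noncomputable def sh (x : G) (f : C(G, ℂ)) : C(G, ℂ) := (addFn f).curry x

omit [CompactSpace G] in
@[simp] lemma sh_apply (x y : G) (f : C(G, ℂ)) : sh x f y = f (x + y) := rfl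

lemma act_apply (μ : MA G) (f : C(G, ℂ)) (x : G) : act μ f x = μ.fn (sh x f) := rfl

lemma act_zero (μ : MA G) (f : C(G, ℂ)) : act μ f 0 = μ.fn f := by
  rw [act_apply]; congr 1; ext y; simp

lemma act_sh (μ : MA G) (f : C(G, ℂ)) (x : G) : act μ (sh x f) = sh x (act μ f) := by
  ext y
  rw [sh_apply, act_apply, act_apply]
  congr 1; ext z; simp [add_assoc]

variable [T2Space G] [TotallyDisconnectedSpace G]

noncomputable instance : CommRing (MA G) :=
  { (inferInstance : AddCommGroup (MA G)) with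
    mul := fun μ ν => MA.mk (conv μ.fn ν.fn)
    one := dirac 0
    mul_assoc := fun μ ν σ => by
      change conv (conv μ.fn ν.fn) σ.fn = conv μ.fn (conv ν.fn σ.fn)
      ext f
      change μ.fn (act ν (act σ f)) = μ.fn (act (MA.mk (conv ν.fn σ.fn)) f)
      congr 1
      ext x
      change ν.fn (sh x (act σ f)) = ν.fn (act σ (sh x f))
      rw [act_sh]
    one_mul := fun μ => by
      change conv (dirac 0 : MA G).fn μ.fn = μ.fn
      ext f
      exact act_zero μ f
    mul_one := fun μ => by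
      change conv μ.fn (dirac 0 : MA G).fn = μ.fn
      rw [conv_comm]
      ext f
      exact act_zero μ f
    mul_comm := fun μ ν => conv_comm μ.fn ν.fn
    zero_mul := fun μ => by
      change conv 0 μ.fn = 0
      ext f; rfl
    mul_zero := fun μ => by
      change conv μ.fn 0 = 0
      rw [conv_comm]; ext f; rfl
    left_distrib := fun μ ν σ => by
      change conv μ.fn (ν.fn + σ.fn) = conv μ.fn ν.fn + conv μ.fn σ.fn
      rw [conv_comm, conv_comm μ.fn, conv_comm μ.fn]; ext f; rfl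
    right_distrib := fun μ ν σ => by
      change conv (μ.fn + ν.fn) σ.fn = conv μ.fn σ.fn + conv ν.fn σ.fn
      ext f; rfl }

lemma mul_fn (μ ν : MA G) : (μ * ν).fn = conv μ.fn ν.fn := rfl

noncomputable instance : NormedCommRing (MA G) :=
  { (inferInstance : CommRing (MA G)), (inferInstance : NormedAddCommGroup (MA G)) with
    norm_mul_le := fun μ ν => norm_conv_le μ.fn ν.fn }

noncomputable instance : NormedAlgebra ℂ (MA G) :=
  { Algebra.ofModule (R := ℂ) (A := MA G)
      (fun c μ ν => by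
        change conv (c • μ.fn) ν.fn = c • conv μ.fn ν.fn
        ext f; rfl)
      (fun c μ ν => by
        change conv μ.fn (c • ν.fn) = c • conv μ.fn ν.fn
        rw [conv_comm, conv_comm μ.fn]; ext f; rfl) with
    norm_smul_le := fun c μ => norm_smul_le c μ }

lemma act_mul (μ ν : MA G) (f : C(G, ℂ)) : act (μ * ν) f = act μ (act ν f) := by
  ext x
  change μ.fn (act ν (sh x f)) = μ.fn (sh x (act ν f))
  rw [act_sh]

omit [T2Space G] [TotallyDisconnectedSpace G] in
lemma act_dirac (e : G) (f : C(G, ℂ)) (x : G) : act (dirac e) f x = f (x + e) := rfl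

lemma act_one (f : C(G, ℂ)) : act (1 : MA G) f = f := by
  ext x
  change f (x + 0) = f x
  rw [add_zero]

lemma act_add (μ ν : MA G) (f : C(G, ℂ)) : act (μ + ν) f = act μ f + act ν f := rfl
lemma act_sub (μ ν : MA G) (f : C(G, ℂ)) : act (μ - ν) f = act μ f - act ν f := rfl
lemma act_smul (c : ℂ) (μ : MA G) (f : C(G, ℂ)) : act (c • μ) f = c • act μ f := rfl

omit [T2Space G] [TotallyDisconnectedSpace G] in
lemma act_add' (μ : MA G) (f g : C(G, ℂ)) : act μ (f + g) = act μ f + act μ g := by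
  unfold act; rw [← slice_add]; rfl

omit [T2Space G] [TotallyDisconnectedSpace G] in
lemma act_smul' (μ : MA G) (c : ℂ) (f : C(G, ℂ)) : act μ (c • f) = c • act μ f := by
  unfold act; rw [← slice_smul]; rfl

omit [T2Space G] [TotallyDisconnectedSpace G] in
lemma act_sub' (μ : MA G) (f g : C(G, ℂ)) : act μ (f - g) = act μ f - act μ g := by
  rw [sub_eq_add_neg, act_add', ← neg_one_smul ℂ g, act_smul']; simp [sub_eq_add_neg]

lemma norm_act_le (μ : MA G) (f : C(G, ℂ)) : ‖act μ f‖ ≤ ‖μ‖ * ‖f‖ :=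
  (norm_slice_le _ _).trans (mul_le_mul_of_nonneg_left (norm_addFn_le f) (norm_nonneg _))

lemma norm_dirac_le (e : G) : ‖(dirac e : MA G)‖ ≤ 1 :=
  ContinuousLinearMap.opNorm_le_bound _ zero_le_one fun f => by
    rw [one_mul]; exact f.norm_coe_le_norm e

lemma norm_one_le : ‖(1 : MA G)‖ ≤ 1 := norm_dirac_le 0

lemma mul_fn_apply (μ ν : MA G) (f : C(G, ℂ)) : (μ * ν).fn f = μ.fn (act ν f) := rfl

/-- abstract existence of the character -/
lemma exists_char {A : Type*} [NormedCommRing A] [NormedAlgebra ℂ A] [CompleteSpace A]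
    (w v : A) (h : ∀ (n : ℕ) (σ : A), 1 / 2 ≤ ‖v ^ n - σ * w‖) :
    ∃ φ : A →ₐ[ℂ] ℂ, φ w = 0 ∧ 1 ≤ ‖φ v‖ := by
  set I : Ideal A := (Ideal.span {w}).closure with hI
  haveI hcl : IsClosed (I : Set A) := isClosed_closure
  have hn : ∀ n : ℕ, 1 / 2 ≤ ‖(Ideal.Quotient.mk I v) ^ n‖ := by
    intro n
    by_contra hlt
    push Not at hlt
    obtain ⟨a, ha, ha'⟩ := Ideal.Quotient.norm_mk_lt ((Ideal.Quotient.mk I v) ^ n)
      (ε := 1 / 2 - ‖(Ideal.Quotient.mk I v) ^ n‖) (by linarith)
    have hmem : v ^ n - a ∈ I := by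
      rw [← Ideal.Quotient.eq, map_pow, ha]
    have hsub : (I : Set A) ⊆ {y | 1 / 2 ≤ ‖v ^ n - y‖} := by
      refine closure_minimal ?_ (isClosed_le continuous_const (by fun_prop))
      intro y hy
      obtain ⟨σ, rfl⟩ := Ideal.mem_span_singleton'.1 hy
      exact h n σ
    have := hsub hmem
    simp only [Set.mem_setOf_eq, sub_sub_cancel] at this
    linarith
  haveI : Nontrivial (A ⧸ I) := by
    refine ⟨⟨1, 0, fun h10 => ?_⟩⟩
    have := hn 0
    rw [pow_zero, h10, norm_zero] at this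
    linarith
  set b := Ideal.Quotient.mk I v with hb
  have hr : (1 : ENNReal) ≤ spectralRadius ℂ b := by
    have h1 : Tendsto (fun n : ℕ => ENNReal.ofReal ((1 / 2 : ℝ) ^ (1 / n : ℝ))) atTop (𝓝 1) := by
      have h2 : Tendsto (fun n : ℕ => (1 / 2 : ℝ) ^ (1 / n : ℝ)) atTop (𝓝 ((1 / 2 : ℝ) ^ (0 : ℝ))) :=
        (Real.continuousAt_const_rpow (by norm_num)).tendsto.comp
          tendsto_one_div_atTop_nhds_zero_nat
      rw [Real.rpow_zero] at h2
      simpa using ENNReal.tendsto_ofReal h2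
    refine le_of_tendsto_of_tendsto' h1
      (spectrum.pow_norm_pow_one_div_tendsto_nhds_spectralRadius b) fun n => ?_
    exact ENNReal.ofReal_le_ofReal (Real.rpow_le_rpow (by norm_num) (hn n) (by positivity))
  obtain ⟨z, hz, hz'⟩ := spectrum.exists_nnnorm_eq_spectralRadius b
  obtain ⟨ψ, hψ⟩ := WeakDual.CharacterSpace.mem_spectrum_iff_exists.1 hz
  refine ⟨(WeakDual.CharacterSpace.equivAlgHom ψ).comp (Ideal.Quotient.mkₐ ℂ I), ?_, ?_⟩
  · have : Ideal.Quotient.mk I w = 0 :=
      Ideal.Quotient.eq_zero_iff_mem.2 (subset_closure (Ideal.mem_span_singleton_self w))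
    simp [this]
  · have : (1 : ENNReal) ≤ ‖z‖₊ := hz' ▸ hr
    have h3 : (1 : ℝ) ≤ ‖z‖ := by exact_mod_cast this
    rw [← hψ] at h3
    exact h3

end Pool.Agent.H.Cortex
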