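import Pool.Agent.H.MP_4cde56_an.Prod

/-! The two main estimates. -/

namespace Pool.Agent.H.Cortex

open Filter Topology

/-- `μ` is the infinite product of the `u i` -/
def IsInf (u : ℕ → MA GG) (μ : MA GG) : Prop :=
  ∀ (N : ℕ) (f : C(GG, ℂ)), Dep (Set.Iio N) f → act μ f = act (∏ i ∈ Finset.range N, u i) f

lemma claim1 {V W : MA GG} (hV : IsInf (fun i => vv (ee i)) V) (hW : IsInf (fun i => ww (ee i)) W)
    (ν : MA GG) : ‖ν * V‖ ≤ 2 * ‖ν * W‖ + ‖ν‖ / 2 := by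
  have cyl : ∀ (N : ℕ) (m : C(GG, ℂ)), Dep (Set.Iio N) m → ‖m‖ ≤ 1 →
      ‖(ν * V).fn m‖ ≤ 2 * ‖ν * W‖ + ‖ν‖ / 2 := by
    intro N m hm hm1
    set n := act (∏ i ∈ Finset.range N, kk (ee i)) m with hn
    have hnd : Dep (Set.Iio N) n := hm.act _
    set n1 : C(GG, ℂ) := ⟨fun y => n y / ((1 + ‖n y‖ / 2 : ℝ) : ℂ),
      Continuous.div (by fun_prop) (by fun_prop) fun y => by
        rw [Complex.ofReal_ne_zero]; positivity⟩ with hn1
    have hn1a : ∀ y, n1 y = n y / ((1 + ‖n y‖ / 2 : ℝ) : ℂ) := fun y => rfl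
    have hd1 : Dep (Set.Iio N) n1 := fun x y hxy => by rw [hn1a, hn1a, hnd x y hxy]
    have hb1 : ‖n1‖ ≤ 2 := (ContinuousMap.norm_le _ (by norm_num)).2 fun y => by
      rw [hn1a, norm_div, Complex.norm_real, Real.norm_eq_abs, abs_of_pos (by positivity),
        div_le_iff₀ (by positivity)]
      linarith
    have hb2 : ∀ y, ‖(n - n1) y‖ ≤ (((1 / 2 : ℂ) • sqf n) y).re := by
      intro y
      have hp : (0 : ℝ) < 1 + ‖n y‖ / 2 := by positivity
      have h1 : (n - n1) y = n y * ((‖n y‖ / 2 / (1 + ‖n y‖ / 2) : ℝ) : ℂ) := by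
        rw [ContinuousMap.sub_apply, hn1a]
        have : ((1 + ‖n y‖ / 2 : ℝ) : ℂ) ≠ 0 := by rw [Complex.ofReal_ne_zero]; positivity
        have h0 : ((‖n y‖ / 2 : ℝ) : ℂ) = ((1 + ‖n y‖ / 2 : ℝ) : ℂ) - 1 := by push_cast; ring
        rw [Complex.ofReal_div, h0]
        generalize ((1 + ‖n y‖ / 2 : ℝ) : ℂ) = t at this
        field_simp
      have h2 : (((1 / 2 : ℂ) • sqf n) y) = ((‖n y‖ ^ 2 / 2 : ℝ) : ℂ) := by
        change (1 / 2 : ℂ) * ((‖n y‖ ^ 2 : ℝ) : ℂ) = _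
        push_cast; ring
      rw [h1, h2, Complex.ofReal_re, norm_mul, Complex.norm_real, Real.norm_eq_abs,
        abs_of_nonneg (by positivity)]
      have h3 : ‖n y‖ / 2 / (1 + ‖n y‖ / 2) ≤ ‖n y‖ / 2 :=
        div_le_self (by positivity) (by linarith [norm_nonneg (n y)])
      nlinarith [norm_nonneg (n y)]
    have hsq : ‖sqf m‖ ≤ 1 := (ContinuousMap.norm_le _ zero_le_one).2 fun y => by
      change ‖((‖m y‖ ^ 2 : ℝ) : ℂ)‖ ≤ 1
      rw [Complex.norm_real, Real.norm_eq_abs, abs_of_nonneg (by positivity)]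
      exact pow_le_one₀ (norm_nonneg _) ((m.norm_coe_le_norm y).trans hm1)
    have hb3 : ‖act (∏ i ∈ Finset.range N, ww (ee i)) (n - n1)‖ ≤ 1 / 2 :=
      (ContinuousMap.norm_le _ (by norm_num)).2 fun x => by
        refine (Dom.prod (Finset.range N) (fun i => dom_ww (ee i)) _ _ hb2 x).trans ?_
        rw [act_smul']
        refine (Complex.re_le_norm _).trans ((ContinuousMap.norm_coe_le_norm _ x).trans ?_)
        rw [norm_smul]
        have := (tensor N m).trans hsq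
        norm_num
        linarith
    have e1 : (ν * V).fn m =
        (ν * W).fn n1 + ν.fn (act (∏ i ∈ Finset.range N, ww (ee i)) (n - n1)) := by
      rw [mul_fn_apply, mul_fn_apply, hV N m hm, hW N n1 hd1, ← map_add, ← act_add',
        add_sub_cancel, hn, ← act_mul, ← Finset.prod_mul_distrib]
      simp only [ww_kk]
    rw [e1]
    refine (norm_add_le _ _).trans (add_le_add ?_ ?_)
    · refine (fn_le _ _).trans ?_
      nlinarith [norm_nonneg (ν * W)]
    · refine (fn_le _ _).trans ?_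
      nlinarith [norm_nonneg ν]
  refine ContinuousLinearMap.opNorm_le_of_unit_norm (f := (ν * V).fn) (by positivity)
    fun f hf => ?_
  refine le_of_forall_pos_le_add fun ε hε => ?_
  obtain ⟨N, g, hg, hfg, hgf⟩ := dense_cyl f (ε := ε / (‖ν * V‖ + 1)) (by positivity)
  have e1 : (ν * V).fn f = (ν * V).fn g + (ν * V).fn (f - g) := by rw [← map_add, add_sub_cancel]
  rw [e1]
  refine (norm_add_le _ _).trans (add_le_add (cyl N g hg (hf ▸ hgf)) ((fn_le _ _).trans ?_))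
  calc ‖ν * V‖ * ‖f - g‖ ≤ (‖ν * V‖ + 1) * (ε / (‖ν * V‖ + 1)) :=
        mul_le_mul (by linarith) hfg (norm_nonneg _) (by positivity)
    _ = ε := by field_simp

lemma letter_coord (n : ℕ) : ∃ (k : ℕ) (ρ : ℝ), 0 ≤ ρ ∧ ρ < 1 ∧ ∀ i, (Nat.unpair i).1 = k →
    ∃ P Pi : C(GG, ℝ), Dep {i} P ∧ (∀ x, 0 < P x) ∧
      (∀ x, Pi x = (P x)⁻¹) ∧ (∀ x, ‖act (ww (ee i)) (ofR P) x‖ ≤ 1) ∧
      ‖act (vv (ee i) ^ n) (ofR Pi) 0‖ ≤ ρ := by
  set c : ℝ := (1 / 10) ^ n / 2 with hc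
  have hc0 : 0 < c := by positivity
  have hc1 : c ≤ 1 := by
    have : (1 / 10 : ℝ) ^ n ≤ 1 := pow_le_one₀ (by norm_num) (by norm_num)
    linarith
  obtain ⟨k, hk⟩ := exists_pow_lt_of_lt_one (x := c / (6 * 7 ^ n)) (y := (4 / 5 : ℝ))
    (by positivity) (by norm_num)
  set η : ℝ := 3 * (4 / 5) ^ (k + 1) with hη
  have hη0 : 0 ≤ η := by positivity
  have hηc : c ≤ (1 / 10) ^ n - 2 * 7 ^ n * η := by
    rw [lt_div_iff₀ (by positivity)] at hk
    have h1 : (4 / 5 : ℝ) ^ (k + 1) ≤ (4 / 5) ^ k :=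
      pow_le_pow_of_le_one (by norm_num) (by norm_num) (Nat.le_succ k)
    have h2 : (0 : ℝ) < 7 ^ n := by positivity
    have h3 : (1 / 10 : ℝ) ^ n = 2 * c := by rw [hc]; ring
    rw [h3, hη]
    nlinarith
  set K : ℝ := (1 + η) * (5 / 2) ^ (k + 2) with hK
  have hp1 : (1 : ℝ) ≤ (5 / 2) ^ (k + 2) := one_le_pow₀ (by norm_num)
  have hK1 : 1 ≤ K := by rw [hK]; nlinarith
  refine ⟨k, 1 - c ^ 2 / (8 * K ^ 2), ?_, ?_, fun i hi => ?_⟩
  · rw [sub_nonneg, div_le_one (by positivity)]; nlinarith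
  · have : 0 < c ^ 2 / (8 * K ^ 2) := by positivity
    linarith
  let φ : C(GG, ℝ) := ⟨fun x => (-2) ^ (x i).val,
    (continuous_of_discreteTopology (f := fun z : ZMod ((Nat.unpair i).1 + 2) =>
      (-2 : ℝ) ^ z.val)).comp (continuous_apply i)⟩
  let D : C(GG, ℝ) := ⟨fun x => (5 / 2) ^ (x i).val,
    (continuous_of_discreteTopology (f := fun z : ZMod ((Nat.unpair i).1 + 2) =>
      (5 / 2 : ℝ) ^ z.val)).comp (continuous_apply i)⟩
  have hφ : ∀ x, φ x = (-2) ^ (x i).val := fun x => rfl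
  have hD : ∀ x, D x = (5 / 2) ^ (x i).val := fun x => rfl
  have hval : ∀ x : GG, ((x + ee i) i).val = ((x i).val + 1) % (k + 2) := by
    intro x
    haveI : Fact (1 < (Nat.unpair i).1 + 2) := ⟨by omega⟩
    simp only [ee, Pi.add_apply, Pi.single_eq_same]
    rw [ZMod.val_add, ZMod.val_one, ← hi]
  have hlt : ∀ x : GG, (x i).val < k + 2 := fun x => hi ▸ ZMod.val_lt (x i)
  obtain ⟨P, Pi, h1, h2, h3, h4, h5⟩ := letter (ee i) D (fun x => by rw [hD]; positivity)
    (fun x => by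
      rw [hD, hD, hval, ← pow_succ']
      exact pow_le_pow_right₀ (by norm_num) (Nat.mod_le _ _)) φ η hη0
    (fun x => by
      rw [hφ, hφ, hD, hval]
      rcases (Nat.succ_le_of_lt (hlt x)).lt_or_eq with h | h
      · rw [Nat.mod_eq_of_lt h, pow_succ]
        have : (-2 : ℝ) ^ (x i).val * -2 + 2 * (-2) ^ (x i).val = 0 := by ring
        rw [this, abs_zero]; positivity
      · have h' : (x i).val = k + 1 := by omega
        rw [h', Nat.mod_self, pow_zero, hη, mul_assoc, ← mul_pow]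
        refine (abs_add_le _ _).trans ?_
        rw [abs_mul, abs_pow]
        have : (1 : ℝ) ≤ 2 ^ (k + 1) := one_le_pow₀ (by norm_num)
        norm_num
        linarith) n K c (by rw [hφ]; simp) (by rw [hD]; simp)
    (fun x => by
      rw [hφ, hD]
      refine (abs_sub _ _).trans ?_
      rw [abs_pow, abs_of_nonneg (a := η * _) (by positivity)]
      have e1 : |(-2 : ℝ)| ^ (x i).val ≤ (5 / 2) ^ (x i).val :=
        pow_le_pow_left₀ (abs_nonneg _) (by norm_num) _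
      have e2 : (5 / 2 : ℝ) ^ (x i).val ≤ (5 / 2) ^ (k + 2) :=
        pow_le_pow_right₀ (by norm_num) (hlt x).le
      rw [hK]; nlinarith) hK1 hηc hc0 hc1
  refine ⟨P, Pi, fun x y hxy => h1 x y ?_ ?_, h2, h3, h4, h5⟩
  · rw [hφ, hφ, hxy i rfl]
  · rw [hD, hD, hxy i rfl]

lemma IsInf.pow {u : ℕ → MA GG} {V : MA GG} (hV : IsInf u V) (n : ℕ) :
    IsInf (fun i => u i ^ n) (V ^ n) := by
  intro N f hf
  rw [Finset.prod_pow]
  induction n with
  | zero => rw [pow_zero, pow_zero]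
  | succ n ih => rw [pow_succ', pow_succ', act_mul, act_mul, ih, hV N _ (hf.act _)]

lemma claim2 {V W : MA GG} (hV : IsInf (fun i => vv (ee i)) V) (hW : IsInf (fun i => ww (ee i)) W)
    (n : ℕ) (σ : MA GG) : 1 / 2 ≤ ‖V ^ n - σ * W‖ := by
  obtain ⟨k, ρ, hρ0, hρ1, H⟩ := letter_coord n
  choose! P Pi hP1 hP2 hP3 hP4 hP5 using H
  set θ : ℝ := 4 * ‖σ‖ + 1 with hθ
  have hθ0 : 0 < θ := by positivity
  obtain ⟨J, hJ⟩ := exists_pow_lt_of_lt_one (x := 1 / (4 * θ)) (by positivity) hρ1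
  set B : Finset ℕ := (Finset.range J).image (Nat.pair k) with hB
  have hBk : ∀ i ∈ B, (Nat.unpair i).1 = k := by
    intro i hi
    obtain ⟨j, -, rfl⟩ := Finset.mem_image.1 hi
    simp
  have hcard : B.card = J := by
    rw [hB, Finset.card_image_of_injective _ fun a b h => (Nat.pair_eq_pair.1 h).2,
      Finset.card_range]
  obtain ⟨N, hN⟩ := B.bddAbove
  have hBN : ∀ i ∈ B, i < N + 1 := fun i hi => Nat.lt_succ_of_le (hN hi)
  set E : C(GG, ℝ) := ∏ i ∈ B, P i with hE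
  have hEa : ∀ x, E x = ∏ i ∈ B, P i x := fun x => by rw [hE, ContinuousMap.prod_apply]
  have hE0 : ∀ x, 0 < E x := fun x => by
    rw [hEa]; exact Finset.prod_pos fun i hi => hP2 i (hBk i hi) x
  have hEd : Dep (Set.Iio (N + 1)) E := fun x y hxy => by
    rw [hEa, hEa]
    exact Finset.prod_congr rfl fun i hi =>
      hP1 i (hBk i hi) x y fun j hj => hxy j (by rw [hj]; exact hBN i hi)
  set f : C(GG, ℝ) := ⟨fun x => E x / (θ + E x),
    Continuous.div (by fun_prop) (by fun_prop) fun x => by have := hE0 x; positivity⟩ with hf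
  have hfa : ∀ x, f x = E x / (θ + E x) := fun x => rfl
  have hfd : Dep (Set.Iio (N + 1)) (ofR f) := fun x y hxy => by
    rw [ofR_apply, ofR_apply, hfa, hfa, hEd x y hxy]
  have hf1 : ‖ofR f‖ ≤ 1 := (ContinuousMap.norm_le _ zero_le_one).2 fun x => by
    have := hE0 x
    rw [ofR_apply, Complex.norm_real, Real.norm_eq_abs, hfa, abs_of_pos (by positivity),
      div_le_one (by positivity)]
    linarith
  have hdP : ∀ i ∈ B, Dep {i} (ofR (P i)) := fun i hi x y hxy => by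
    rw [ofR_apply, ofR_apply, hP1 i (hBk i hi) x y hxy]
  have hdPi : ∀ i ∈ B, Dep {i} (ofR (Pi i)) := fun i hi x y hxy => by
    rw [ofR_apply, ofR_apply, hP3 i (hBk i hi), hP3 i (hBk i hi), hP1 i (hBk i hi) x y hxy]
  have hW1 : ‖act W (ofR f)‖ ≤ 1 / θ := (ContinuousMap.norm_le _ (by positivity)).2 fun x => by
    rw [hW _ _ hfd]
    refine (Dom.prod (Finset.range (N + 1)) (fun i => dom_ww (ee i)) _
      (((1 / θ : ℝ) : ℂ) • ∏ i ∈ B, ofR (P i)) (fun y => ?_) x).trans ?_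
    · have := hE0 y
      rw [ofR_apply, Complex.norm_real, Real.norm_eq_abs, hfa, abs_of_pos (by positivity),
        ContinuousMap.smul_apply, ContinuousMap.prod_apply B (fun i => ofR (P i))]
      simp only [ofR_apply, smul_eq_mul]
      rw [← Complex.ofReal_prod, ← Complex.ofReal_mul, Complex.ofReal_re, ← hEa, one_div,
        ← div_eq_inv_mul]
      exact div_le_div_of_nonneg_left this.le hθ0 (by linarith)
    · rw [act_smul', act_prod_prod (fun i => loc_ww (ee i)) _ _ B hBN hdP]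
      refine (Complex.re_le_norm _).trans ?_
      rw [ContinuousMap.smul_apply, norm_smul, ContinuousMap.prod_apply, norm_prod,
        Complex.norm_real, Real.norm_eq_abs, abs_of_pos (by positivity)]
      exact mul_le_of_le_one_right (by positivity)
        (Finset.prod_le_one (fun _ _ => norm_nonneg _) fun i hi => hP4 i (hBk i hi) x)
  have hloc : ∀ i, Loc (ee i) (vv (ee i) ^ n) := fun i => (loc_vv (ee i)).pow n
  have hV1 : ‖1 - (V ^ n).fn (ofR f)‖ ≤ 1 / 4 := by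
    have e1 : act (∏ i ∈ Finset.range (N + 1), vv (ee i) ^ n) (1 : C(GG, ℂ)) = 1 := by
      simpa using act_prod_prod hloc (fun _ => 1) (N + 1) ∅ (by simp) (by simp)
    have e2 : 1 - (V ^ n).fn (ofR f) =
        act (∏ i ∈ Finset.range (N + 1), vv (ee i) ^ n) (1 - ofR f) 0 := by
      rw [act_sub', e1, ← act_zero, hV.pow n _ _ hfd]; rfl
    rw [e2]
    refine (Dom.prod (Finset.range (N + 1)) (fun i => (dom_vv (ee i)).pow n) _
      ((θ : ℂ) • ∏ i ∈ B, ofR (Pi i)) (fun y => ?_) 0).trans ?_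
    · have := hE0 y
      have e3 : (1 - ofR f) y = ((θ / (θ + E y) : ℝ) : ℂ) := by
        rw [ContinuousMap.sub_apply, ofR_apply, hfa, ContinuousMap.one_apply,
          ← Complex.ofReal_one, ← Complex.ofReal_sub]
        congr 1; field_simp; ring
      rw [e3, Complex.norm_real, Real.norm_eq_abs, abs_of_pos (by positivity),
        ContinuousMap.smul_apply, ContinuousMap.prod_apply B (fun i => ofR (Pi i))]
      simp only [ofR_apply, smul_eq_mul]
      rw [← Complex.ofReal_prod, ← Complex.ofReal_mul, Complex.ofReal_re,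
        Finset.prod_congr rfl fun i hi => hP3 i (hBk i hi) y, Finset.prod_inv_distrib, ← hEa,
        ← div_eq_mul_inv]
      exact div_le_div_of_nonneg_left hθ0.le this (by linarith)
    · rw [act_smul', act_prod_prod hloc _ _ B hBN hdPi]
      refine (Complex.re_le_norm _).trans ?_
      rw [ContinuousMap.smul_apply, norm_smul, ContinuousMap.prod_apply, norm_prod,
        Complex.norm_real, Real.norm_eq_abs, abs_of_pos hθ0]
      have e4 : ∏ i ∈ B, ‖act (vv (ee i) ^ n) (ofR (Pi i)) 0‖ ≤ ρ ^ J := by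
        rw [← hcard, ← Finset.prod_const]
        exact Finset.prod_le_prod (fun _ _ => norm_nonneg _) fun i hi => hP5 i (hBk i hi)
      rw [lt_div_iff₀ (by positivity)] at hJ
      nlinarith
  have e5 : ‖(σ * W).fn (ofR f)‖ ≤ 1 / 4 := by
    rw [mul_fn_apply]
    refine (fn_le _ _).trans ((mul_le_mul_of_nonneg_left hW1 (norm_nonneg _)).trans ?_)
    rw [mul_one_div, div_le_iff₀ hθ0]; linarith
  have e6 := fn_le (V ^ n - σ * W) (ofR f)
  have e7 : (V ^ n - σ * W).fn (ofR f) = (V ^ n).fn (ofR f) - (σ * W).fn (ofR f) := rfl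
  have e8 : (1 : ℂ) = (1 - (V ^ n).fn (ofR f)) + (V ^ n - σ * W).fn (ofR f) +
      (σ * W).fn (ofR f) := by rw [e7]; ring
  have e9 := norm_add₃_le (a := 1 - (V ^ n).fn (ofR f)) (b := (V ^ n - σ * W).fn (ofR f))
    (c := (σ * W).fn (ofR f))
  rw [← e8, norm_one] at e9
  nlinarith [norm_nonneg (V ^ n - σ * W)]

theorem main : ∃ (φ : MA GG →ₐ[ℂ] ℂ) (μ₁ μ₂ : MA GG), φ μ₁ = 0 ∧ φ μ₂ = 0 ∧
    ∀ ν : MA GG, ‖ν‖ = 1 → 1 / 4 ≤ ‖μ₁ * ν‖ + ‖μ₂ * ν‖ := by
  obtain ⟨V, hV⟩ := exists_inf_prod (fun i => norm_vv_le (ee i)) fun i => loc_vv (ee i)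
  obtain ⟨W, hW⟩ := exists_inf_prod (fun i => norm_ww_le (ee i)) fun i => loc_ww (ee i)
  obtain ⟨φ, h1, h2⟩ := exists_char W V (claim2 hV hW)
  refine ⟨φ, W, V - φ V • 1, h1, by simp, fun ν hν => ?_⟩
  have h3 := claim1 hV hW ν
  have h4 : φ V • ν = ν * V - (V - φ V • 1) * ν := by
    rw [sub_mul, smul_mul_assoc, one_mul, mul_comm V ν]; abel
  have h5 : ‖φ V • ν‖ ≤ ‖ν * V‖ + ‖(V - φ V • 1) * ν‖ := h4 ▸ norm_sub_le _ _
  rw [norm_smul, hν, mul_one] at h5
  rw [mul_comm W ν]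
  rw [hν] at h3
  linarith [norm_nonneg ((V - φ V • 1) * ν)]

end Pool.Agent.H.Cortex
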