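import Pool.Agent.H.MP_4cde56_an.Alg

/-! One-letter channels. -/

namespace Pool.Agent.H.Cortex

open Filter Topology

variable {G : Type} [AddCommGroup G] [TopologicalSpace G] [IsTopologicalAddGroup G]
  [CompactSpace G] [T2Space G] [TotallyDisconnectedSpace G]

lemma MA.ext' {μ ν : MA G} (h : ∀ f, act μ f = act ν f) : μ = ν := by
  change μ.fn = ν.fn
  ext f
  rw [← act_zero, ← act_zero, h]

/-- resolvent of a shift -/
noncomputable def rr (a : ℝ) (e : G) : MA G := Ring.inverse (1 - (a : ℂ) • dirac e)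
/-- the Bernoulli channel -/
noncomputable def ww (e : G) : MA G := (2 / 3 : ℂ) • 1 + (1 / 3 : ℂ) • dirac e
/-- the noisier channel -/
noncomputable def vv (e : G) : MA G := (1 / 2 : ℂ) • 1 + (1 / 3 : ℂ) • (dirac e * rr (1 / 3) e)
/-- the signed quotient -/
noncomputable def kk (e : G) : MA G := (3 / 5 : ℂ) • rr (1 / 3) e + (3 / 20 : ℂ) • rr (-1 / 2) e

lemma rr_mul {a : ℝ} (ha : |a| < 1) (e : G) : (1 - (a : ℂ) • dirac e) * rr a e = 1 := by
  apply Ring.mul_inverse_cancel
  have : ‖(a : ℂ) • (dirac e : MA G)‖ < 1 := by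
    refine (norm_smul_le _ _).trans_lt ?_
    rw [Complex.norm_real, Real.norm_eq_abs]
    have := norm_dirac_le e
    nlinarith [abs_nonneg a, norm_nonneg (dirac e : MA G)]
  exact (Units.oneSub _ this).isUnit

lemma rr_spec {a : ℝ} (ha : |a| < 1) (e : G) (f : C(G, ℂ)) (x : G) :
    act (rr a e) f x = f x + a * act (rr a e) f (x + e) := by
  have h := congrArg (fun μ => act μ f x) (rr_mul ha e)
  simp only [act_mul, act_sub, act_smul, act_one, ContinuousMap.sub_apply,
    ContinuousMap.smul_apply, act_dirac, smul_eq_mul] at h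
  linear_combination h

lemma rr_uniq {a : ℝ} (ha : |a| < 1) (e : G) (f g : C(G, ℂ))
    (h : ∀ x, g x = f x + a * g (x + e)) : act (rr a e) f = g := by
  have h1 : act (1 - (a : ℂ) • dirac e) g = f := by
    ext x
    simp only [act_sub, act_smul, act_one, ContinuousMap.sub_apply,
      ContinuousMap.smul_apply, act_dirac, smul_eq_mul]
    linear_combination h x
  rw [← h1, ← act_mul, mul_comm, rr_mul ha, act_one]

lemma h13 : |(1 / 3 : ℝ)| < 1 := by rw [abs_lt]; constructor <;> norm_num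
lemma h12 : |(-1 / 2 : ℝ)| < 1 := by rw [abs_lt]; constructor <;> norm_num

lemma ww_apply (e : G) (f : C(G, ℂ)) (x : G) :
    act (ww e) f x = 2 / 3 * f x + 1 / 3 * f (x + e) := by
  simp only [ww, act_add, act_smul, act_one, ContinuousMap.add_apply, ContinuousMap.smul_apply,
    act_dirac, smul_eq_mul]

lemma vv_apply (e : G) (f : C(G, ℂ)) (x : G) :
    act (vv e) f x = 1 / 2 * f x + 1 / 3 * act (rr (1 / 3) e) f (x + e) := by
  simp only [vv, act_add, act_smul, act_one, act_mul, ContinuousMap.add_apply,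
    ContinuousMap.smul_apply, act_dirac, smul_eq_mul]

lemma kk_apply (e : G) (f : C(G, ℂ)) (x : G) :
    act (kk e) f x = 3 / 5 * act (rr (1 / 3) e) f x + 3 / 20 * act (rr (-1 / 2) e) f x := by
  simp only [kk, act_add, act_smul, ContinuousMap.add_apply,
    ContinuousMap.smul_apply, smul_eq_mul]

lemma ww_kk (e : G) : ww e * kk e = vv e := by
  refine MA.ext' fun f => ?_
  ext x
  rw [act_mul, ww_apply, kk_apply, kk_apply, vv_apply, rr_spec h13 e f x, rr_spec h12 e f x]
  push_cast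
  ring

omit [IsTopologicalAddGroup G] [T2Space G] [TotallyDisconnectedSpace G] in
lemma pos_principle {Z : G → ℝ} (hZ : Continuous Z) {a : ℝ} (ha0 : 0 ≤ a) (ha : a < 1) (e : G)
    (h : ∀ x, a * Z (x + e) ≤ Z x) (x : G) : 0 ≤ Z x := by
  obtain ⟨x0, -, hx0⟩ := isCompact_univ.exists_isMinOn ⟨x, Set.mem_univ x⟩ hZ.continuousOn
  have h1 : Z x0 ≤ Z (x0 + e) := hx0 (Set.mem_univ _)
  have h2 : Z x0 ≤ Z x := hx0 (Set.mem_univ _)
  have h3 := h x0
  have : 0 ≤ Z x0 := by nlinarith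
  linarith

lemma norm_rr_le (e : G) : ‖rr (1 / 3) e‖ ≤ 3 / 2 := by
  have h : rr (1 / 3) e = 1 + (((1 / 3 : ℝ) : ℂ) • dirac e) * rr (1 / 3) e := by
    have := rr_mul h13 e
    linear_combination this
  have h2 : ‖(((1 / 3 : ℝ) : ℂ) • (dirac e : MA G))‖ ≤ 1 / 3 := by
    refine (norm_smul_le _ _).trans ?_
    rw [Complex.norm_real, Real.norm_eq_abs, abs_of_pos (by norm_num)]
    have := norm_dirac_le e
    linarith
  have h3 : ‖rr (1 / 3) e‖ ≤ 1 + 1 / 3 * ‖rr (1 / 3) e‖ := by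
    conv_lhs => rw [h]
    refine (norm_add_le _ _).trans (add_le_add norm_one_le ((norm_mul_le _ _).trans ?_))
    exact mul_le_mul_of_nonneg_right h2 (norm_nonneg _)
  linarith

lemma norm_ww_le (e : G) : ‖ww e‖ ≤ 1 := by
  refine (norm_add_le _ _).trans ?_
  have h1 := norm_smul_le (2 / 3 : ℂ) (1 : MA G)
  have h2 := norm_smul_le (1 / 3 : ℂ) (dirac e : MA G)
  have h3 := norm_dirac_le e
  have h4 := norm_one_le (G := G)
  norm_num at h1 h2
  linarith

lemma norm_vv_le (e : G) : ‖vv e‖ ≤ 1 := by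
  refine (norm_add_le _ _).trans ?_
  have h1 := norm_smul_le (1 / 2 : ℂ) (1 : MA G)
  have h2 := norm_smul_le (1 / 3 : ℂ) (dirac e * rr (1 / 3) e : MA G)
  have h3 := norm_dirac_le e
  have h4 := norm_one_le (G := G)
  have h5 := norm_mul_le (dirac e : MA G) (rr (1 / 3) e)
  have h6 := norm_rr_le e
  have h7 : ‖(dirac e : MA G)‖ * ‖rr (1 / 3) e‖ ≤ 1 * (3 / 2) :=
    mul_le_mul h3 h6 (norm_nonneg _) zero_le_one
  norm_num at h1 h2 h7
  linarith

/-- domination (positivity) -/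
def Dom (μ : MA G) : Prop :=
  ∀ g h : C(G, ℂ), (∀ y, ‖g y‖ ≤ (h y).re) → ∀ x, ‖act μ g x‖ ≤ (act μ h x).re

lemma Dom.one : Dom (1 : MA G) := fun g h H x => by simpa [act_one] using H x

lemma Dom.mul {μ ν : MA G} (hμ : Dom μ) (hν : Dom ν) : Dom (μ * ν) := fun g h H x => by
  rw [act_mul, act_mul]; exact hμ _ _ (hν g h H) x

lemma Dom.pow {μ : MA G} (hμ : Dom μ) (n : ℕ) : Dom (μ ^ n) := by
  induction n with
  | zero => rw [pow_zero]; exact Dom.one
  | succ n ih => rw [pow_succ]; exact ih.mul hμ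

lemma Dom.prod {ι : Type*} (s : Finset ι) {μ : ι → MA G} (h : ∀ i, Dom (μ i)) :
    Dom (∏ i ∈ s, μ i) :=
  Finset.prod_induction _ Dom (fun _ _ => Dom.mul) Dom.one fun i _ => h i

lemma dom_ww (e : G) : Dom (ww e) := fun g h H x => by
  rw [ww_apply, ww_apply]
  refine (norm_add_le _ _).trans ?_
  have h1 := H x
  have h2 := H (x + e)
  simp only [norm_mul, norm_div, Complex.norm_ofNat, norm_one, Complex.add_re, Complex.mul_re]
  norm_num
  linarith

lemma dom_rr (e : G) : Dom (rr (1 / 3) e) := fun g h H x => by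
  have := pos_principle (Z := fun x => (act (rr (1 / 3) e) h x).re - ‖act (rr (1 / 3) e) g x‖)
    (by fun_prop) (a := 1 / 3) (by norm_num) (by norm_num) e (fun x => by
      have h1 := rr_spec h13 e h x
      have h2 := rr_spec h13 e g x
      have h3 : ‖act (rr (1 / 3) e) g x‖ ≤ ‖g x‖ + 1 / 3 * ‖act (rr (1 / 3) e) g (x + e)‖ := by
        rw [h2]
        refine (norm_add_le _ _).trans ?_
        rw [norm_mul, Complex.norm_real, Real.norm_eq_abs, abs_of_pos (by norm_num)]
      have h4 : (act (rr (1 / 3) e) h x).re =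
          (h x).re + 1 / 3 * (act (rr (1 / 3) e) h (x + e)).re := by
        rw [h1]; simp
      have := H x
      linarith) x
  linarith

lemma dom_vv (e : G) : Dom (vv e) := fun g h H x => by
  rw [vv_apply, vv_apply]
  refine (norm_add_le _ _).trans ?_
  have h1 := H x
  have h2 := dom_rr e g h H (x + e)
  simp only [norm_mul, norm_div, Complex.norm_ofNat, norm_one, Complex.add_re, Complex.mul_re]
  norm_num
  linarith

/-- squared modulus -/
noncomputable def sqf (m : C(G, ℂ)) : C(G, ℂ) := ⟨fun x => ((‖m x‖ ^ 2 : ℝ) : ℂ), by fun_prop⟩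

omit [AddCommGroup G] [IsTopologicalAddGroup G] [CompactSpace G] [T2Space G]
  [TotallyDisconnectedSpace G] in
lemma sqf_apply (m : C(G, ℂ)) (x : G) : sqf m x = (((m x).re ^ 2 + (m x).im ^ 2 : ℝ) : ℂ) := by
  change ((‖m x‖ ^ 2 : ℝ) : ℂ) = _
  rw [Complex.sq_norm, Complex.normSq_apply]; congr 1; ring

/-- Lyapunov form -/
noncomputable def Qr (p q : ℝ) : ℝ := 18 / 25 * p ^ 2 - 6 / 25 * p * q + 27 / 100 * q ^ 2

lemma lyap (e : G) (m : C(G, ℂ)) (x : G) :
    Qr (act (rr (1 / 3) e) m x).re (act (rr (-1 / 2) e) m x).re +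
      Qr (act (rr (1 / 3) e) m x).im (act (rr (-1 / 2) e) m x).im ≤
      (act (rr (1 / 3) e) (sqf m) x).re := by
  have := pos_principle (Z := fun x => (act (rr (1 / 3) e) (sqf m) x).re -
      (Qr (act (rr (1 / 3) e) m x).re (act (rr (-1 / 2) e) m x).re +
      Qr (act (rr (1 / 3) e) m x).im (act (rr (-1 / 2) e) m x).im))
    (by unfold Qr; fun_prop) (a := 1 / 3) (by norm_num) (by norm_num) e (fun x => by
      rw [rr_spec h13 e (sqf m) x, rr_spec h13 e m x, rr_spec h12 e m x, sqf_apply]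
      generalize act (rr (1 / 3) e) (sqf m) (x + e) = y
      generalize act (rr (1 / 3) e) m (x + e) = p
      generalize act (rr (-1 / 2) e) m (x + e) = q
      generalize m x = z
      simp only [Qr, Complex.add_re, Complex.add_im, Complex.mul_re, Complex.mul_im,
        Complex.ofReal_re, Complex.ofReal_im]
      nlinarith [sq_nonneg (z.re - 4 / 5 * p.re + 3 / 10 * q.re),
        sq_nonneg (z.im - 4 / 5 * p.im + 3 / 10 * q.im)]) x
  linarith

/-- the one-letter less-noisy inequality -/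
lemma less_noisy (e : G) (m : C(G, ℂ)) (x : G) :
    ‖act (ww e) (sqf (act (kk e) m)) x‖ ≤ (act (vv e) (sqf m) x).re := by
  have h := lyap e m (x + e)
  rw [ww_apply, vv_apply, sqf_apply, sqf_apply, sqf_apply, kk_apply, kk_apply,
    rr_spec h13 e m x, rr_spec h12 e m x]
  generalize act (rr (1 / 3) e) (sqf m) (x + e) = y at h ⊢
  generalize act (rr (1 / 3) e) m (x + e) = p at h ⊢
  generalize act (rr (-1 / 2) e) m (x + e) = q at h ⊢
  generalize m x = z
  have key : ∀ A B : ℝ, 0 ≤ A → 0 ≤ B → ‖(2 / 3 * (A : ℂ) + 1 / 3 * (B : ℂ))‖ = 2 / 3 * A + 1 / 3 * B := by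
    intro A B hA hB
    have : (2 / 3 * (A : ℂ) + 1 / 3 * (B : ℂ)) = ((2 / 3 * A + 1 / 3 * B : ℝ) : ℂ) := by push_cast; ring
    rw [this, Complex.norm_real, Real.norm_eq_abs, abs_of_nonneg (by positivity)]
  rw [key _ _ (by positivity) (by positivity)]
  have e1 : (3 / 5 : ℂ) = ((3 / 5 : ℝ) : ℂ) := by push_cast; ring
  have e2 : (3 / 20 : ℂ) = ((3 / 20 : ℝ) : ℂ) := by push_cast; ring
  have e3 : (1 / 2 : ℂ) = ((1 / 2 : ℝ) : ℂ) := by push_cast; ring
  have e4 : (1 / 3 : ℂ) = ((1 / 3 : ℝ) : ℂ) := by push_cast; ring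
  rw [e1, e2, e3, e4]
  simp only [Qr, Complex.add_re, Complex.add_im, Complex.mul_re, Complex.mul_im,
    Complex.ofReal_re, Complex.ofReal_im] at h ⊢
  nlinarith [sq_nonneg (z.re - 4 / 5 * p.re + 3 / 10 * q.re),
    sq_nonneg (z.im - 4 / 5 * p.im + 3 / 10 * q.im), sq_nonneg (p.re - 9 / 4 * q.re),
    sq_nonneg (p.im - 9 / 4 * q.im)]

/-- `μ` commutes with multiplication by `e`-invariant functions and fixes constants -/
def Loc (e : G) (μ : MA G) : Prop :=
  (∀ g h : C(G, ℂ), (∀ x, h (x + e) = h x) → act μ (g * h) = act μ g * h) ∧ act μ 1 = 1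

lemma Loc.fix {e : G} {μ : MA G} (H : Loc e μ) {h : C(G, ℂ)} (hh : ∀ x, h (x + e) = h x) :
    act μ h = h := by
  have := H.1 1 h hh
  rwa [one_mul, H.2, one_mul] at this

lemma rr_loc (e : G) (g h : C(G, ℂ)) (hh : ∀ x, h (x + e) = h x) :
    act (rr (1 / 3) e) (g * h) = act (rr (1 / 3) e) g * h := by
  refine rr_uniq h13 e _ _ fun x => ?_
  simp only [ContinuousMap.mul_apply]
  rw [rr_spec h13 e g x, hh]; ring

lemma rr_one (e : G) : act (rr (1 / 3) e) 1 = (3 / 2 : ℂ) • (1 : C(G, ℂ)) := by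
  refine rr_uniq h13 e _ _ fun x => ?_
  simp only [ContinuousMap.smul_apply, ContinuousMap.one_apply, smul_eq_mul]
  push_cast; ring

lemma loc_ww (e : G) : Loc e (ww e) := by
  refine ⟨fun g h hh => ?_, ?_⟩
  · ext x
    simp only [ContinuousMap.mul_apply, ww_apply, hh]; ring
  · ext x
    simp only [ww_apply, ContinuousMap.one_apply]; ring

lemma loc_vv (e : G) : Loc e (vv e) := by
  refine ⟨fun g h hh => ?_, ?_⟩
  · ext x
    simp only [ContinuousMap.mul_apply, vv_apply, rr_loc e g h hh, hh]; ring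
  · ext x
    simp only [vv_apply, ContinuousMap.one_apply, rr_one, ContinuousMap.smul_apply, smul_eq_mul]
    ring

end Pool.Agent.H.Cortex
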