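import Pool.Agent.H.MP_4cde56_an.Wt

/-! The product group and infinite products. -/

namespace Pool.Agent.H.Cortex

open Filter Topology

instance (n : ℕ) : IsTopologicalAddGroup (ZMod n) where
  continuous_add := continuous_of_discreteTopology
  continuous_neg := continuous_of_discreteTopology

/-- the group -/
abbrev GG : Type := (i : ℕ) → ZMod ((Nat.unpair i).1 + 2)

/-- basis elements -/
def ee (i : ℕ) : GG := Pi.single i 1

/-- dependence on coordinates in `S` only -/
def Dep {R : Type} [TopologicalSpace R] (S : Set ℕ) (f : C(GG, R)) : Prop :=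
  ∀ x y : GG, (∀ i ∈ S, x i = y i) → f x = f y

lemma Dep.act {S : Set ℕ} {f : C(GG, ℂ)} (h : Dep S f) (μ : MA GG) : Dep S (act μ f) := by
  intro x y hxy
  rw [act_apply, act_apply]
  congr 1
  ext z
  exact h _ _ fun i hi => by simp [hxy i hi]

lemma Dep.inv {S : Set ℕ} {f : C(GG, ℂ)} (h : Dep S f) {i : ℕ} (hi : i ∉ S) (x : GG) :
    f (x + ee i) = f x :=
  h _ _ fun j hj => by
    have : j ≠ i := fun e => hi (e ▸ hj)
    simp [ee, Pi.single_eq_of_ne this]

lemma Dep.mono {R : Type} [TopologicalSpace R] {S T : Set ℕ} {f : C(GG, R)} (h : Dep S f)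
    (hST : S ⊆ T) : Dep T f := fun x y hxy => h x y fun i hi => hxy i (hST hi)

/-- truncation -/
def trunc (N : ℕ) : C(GG, GG) :=
  ⟨fun x i => if i < N then x i else 0, continuous_pi fun i => by
    by_cases h : i < N
    · simp only [h, if_true]; exact continuous_apply i
    · simp only [h, if_false]; exact continuous_const⟩

lemma dense_cyl (f : C(GG, ℂ)) {ε : ℝ} (hε : 0 < ε) :
    ∃ (N : ℕ) (g : C(GG, ℂ)), Dep (Set.Iio N) g ∧ ‖f - g‖ ≤ ε ∧ ‖g‖ ≤ ‖f‖ := by
  let V : ℕ → Set GG := fun N =>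
    {x | ∀ y z : GG, (∀ i < N, y i = x i) → (∀ i < N, z i = x i) → ‖f y - f z‖ ≤ ε}
  have hcyl : ∀ (N : ℕ) (x : GG), {y : GG | ∀ i < N, y i = x i} ∈ 𝓝 x := by
    intro N x
    have : {y : GG | ∀ i < N, y i = x i} = ⋂ i ∈ Finset.range N, {y : GG | y i = x i} := by
      ext y; simp
    rw [this, Filter.biInter_finset_mem]
    intro i _
    have h : IsOpen ((fun y : GG => y i) ⁻¹' {x i}) :=
      (isOpen_discrete _).preimage (continuous_apply i)
    exact h.mem_nhds rfl
  have hVo : ∀ N, IsOpen (V N) := fun N => isOpen_iff_mem_nhds.2 fun x hx =>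
    Filter.mem_of_superset (hcyl N x) fun w hw y z hy hz =>
      hx y z (fun i hi => (hy i hi).trans (hw i hi)) (fun i hi => (hz i hi).trans (hw i hi))
  have hmono : Monotone V := fun N M hNM x hx y z hy hz =>
    hx y z (fun i hi => hy i (hi.trans_le hNM)) (fun i hi => hz i (hi.trans_le hNM))
  have hcov : (Set.univ : Set GG) ⊆ ⋃ N, V N := by
    intro x _
    have h1 : {y | ‖f y - f x‖ < ε / 2} ∈ 𝓝 x :=
      (isOpen_lt (by fun_prop) continuous_const).mem_nhds (by simp [hε])
    rw [nhds_pi, Filter.mem_pi] at h1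
    obtain ⟨I, hI, t, ht, hsub⟩ := h1
    obtain ⟨N, hN⟩ := hI.bddAbove
    refine Set.mem_iUnion.2 ⟨N + 1, fun y z hy hz => ?_⟩
    have key : ∀ y : GG, (∀ i < N + 1, y i = x i) → ‖f y - f x‖ < ε / 2 := fun y hy =>
      hsub fun i hi => by
        rw [hy i (Nat.lt_succ_of_le (hN hi))]; exact mem_of_mem_nhds (ht i)
    have h2 := key y hy
    have h3 := key z hz
    have : f y - f z = (f y - f x) - (f z - f x) := by ring
    rw [this]
    exact (norm_sub_le _ _).trans (by linarith)
  obtain ⟨N, hN⟩ := isCompact_univ.elim_directed_cover V hVo hcov hmono.directed_le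
  refine ⟨N, f.comp (trunc N), fun x y hxy => ?_, ?_, ?_⟩
  · change f (trunc N x) = f (trunc N y)
    congr 1
    funext i
    change (if i < N then x i else 0) = (if i < N then y i else 0)
    split_ifs with h
    · exact hxy i h
    · rfl
  · refine (ContinuousMap.norm_le _ hε.le).2 fun x => ?_
    exact hN (Set.mem_univ x) x (trunc N x) (fun _ _ => rfl) fun i hi => if_pos hi
  · exact (ContinuousMap.norm_le _ (norm_nonneg _)).2 fun x => f.norm_coe_le_norm _

lemma norm_prod_le' {u : ℕ → MA GG} (hu : ∀ i, ‖u i‖ ≤ 1) (N : ℕ) :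
    ‖∏ i ∈ Finset.range N, u i‖ ≤ 1 := by
  induction N with
  | zero => simpa using norm_one_le
  | succ N ih =>
    rw [Finset.prod_range_succ]
    exact (norm_mul_le _ _).trans (mul_le_one₀ ih (norm_nonneg _) (hu N))

lemma act_prod_stable {u : ℕ → MA GG} (hl : ∀ i, Loc (ee i) (u i)) {N : ℕ} {f : C(GG, ℂ)}
    (hf : Dep (Set.Iio N) f) {M : ℕ} (hM : N ≤ M) :
    act (∏ i ∈ Finset.range M, u i) f = act (∏ i ∈ Finset.range N, u i) f := by
  induction M, hM using Nat.le_induction with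
  | base => rfl
  | succ M hM ih =>
    rw [Finset.prod_range_succ, act_mul, (hl M).fix (hf.inv (by simpa using hM)), ih]

lemma fn_le (μ : MA GG) (f : C(GG, ℂ)) : ‖μ.fn f‖ ≤ ‖μ‖ * ‖f‖ := μ.fn.le_opNorm f

lemma exists_inf_prod {u : ℕ → MA GG} (hu : ∀ i, ‖u i‖ ≤ 1) (hl : ∀ i, Loc (ee i) (u i)) :
    ∃ μ : MA GG, ∀ (N : ℕ) (f : C(GG, ℂ)), Dep (Set.Iio N) f →
      act μ f = act (∏ i ∈ Finset.range N, u i) f := by
  have hc : ∀ f : C(GG, ℂ), CauchySeq fun N => (∏ i ∈ Finset.range N, u i).fn f := by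
    intro f
    refine Metric.cauchySeq_iff'.2 fun ε hε => ?_
    obtain ⟨N, g, hg, hfg, -⟩ := dense_cyl f (ε := ε / 3) (by positivity)
    refine ⟨N, fun M hM => ?_⟩
    have h1 : (∏ i ∈ Finset.range M, u i).fn g = (∏ i ∈ Finset.range N, u i).fn g := by
      rw [← act_zero, ← act_zero, act_prod_stable hl hg hM]
    have h2 : ∀ K, ‖(∏ i ∈ Finset.range K, u i).fn (f - g)‖ ≤ ε / 3 := fun K =>
      (fn_le _ _).trans ((mul_le_of_le_one_left (norm_nonneg _) (norm_prod_le' hu K)).trans hfg)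
    have h3 : (∏ i ∈ Finset.range M, u i).fn f - (∏ i ∈ Finset.range N, u i).fn f =
        (∏ i ∈ Finset.range M, u i).fn (f - g) - (∏ i ∈ Finset.range N, u i).fn (f - g) := by
      rw [map_sub, map_sub, h1]; ring
    rw [dist_eq_norm, h3]
    refine (norm_sub_le _ _).trans_lt ?_
    have := h2 M
    have := h2 N
    linarith
  choose l hl' using fun f => cauchySeq_tendsto_of_complete (hc f)
  have ht : Tendsto (fun N f => (∏ i ∈ Finset.range N, u i).fn f) atTop (𝓝 l) :=
    tendsto_pi_nhds.2 hl'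
  refine ⟨MA.mk (continuousLinearMapOfTendsto (fun N => (∏ i ∈ Finset.range N, u i).fn) ht),
    fun N f hf => ?_⟩
  ext x
  rw [act_apply, act_apply]
  change l (sh x f) = _
  refine tendsto_nhds_unique (hl' (sh x f)) (tendsto_const_nhds.congr' ?_)
  filter_upwards [eventually_ge_atTop N] with M hM
  rw [← act_apply, ← act_apply, act_prod_stable hl hf hM]

lemma Loc.mul {e : GG} {μ ν : MA GG} (hμ : Loc e μ) (hν : Loc e ν) : Loc e (μ * ν) :=
  ⟨fun g h hh => by rw [act_mul, hν.1 g h hh, hμ.1 _ h hh, act_mul],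
    by rw [act_mul, hν.2, hμ.2]⟩

lemma Loc.pow {e : GG} {μ : MA GG} (hμ : Loc e μ) (n : ℕ) : Loc e (μ ^ n) := by
  induction n with
  | zero => rw [pow_zero]; exact ⟨fun g h _ => by rw [act_one, act_one], act_one _⟩
  | succ n ih => rw [pow_succ]; exact ih.mul hμ

lemma act_prod_mul {u : ℕ → MA GG} (hl : ∀ i, Loc (ee i) (u i)) (N : ℕ) (h g : C(GG, ℂ))
    (hg : ∀ i < N, ∀ x, g (x + ee i) = g x) :
    act (∏ i ∈ Finset.range N, u i) (h * g) = act (∏ i ∈ Finset.range N, u i) h * g := by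
  induction N generalizing h with
  | zero => simp [act_one]
  | succ N ih =>
    rw [Finset.prod_range_succ, act_mul, act_mul, (hl N).1 h g (hg N (Nat.lt_succ_self N)),
      ih _ fun i hi => hg i (Nat.lt_succ_of_lt hi)]

lemma act_prod_prod {u : ℕ → MA GG} (hl : ∀ i, Loc (ee i) (u i)) (F : ℕ → C(GG, ℂ)) (N : ℕ)
    (B : Finset ℕ) (hB : ∀ i ∈ B, i < N) (hF : ∀ i ∈ B, Dep {i} (F i)) :
    act (∏ i ∈ Finset.range N, u i) (∏ i ∈ B, F i) = ∏ i ∈ B, act (u i) (F i) := by
  induction N generalizing B with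
  | zero =>
    have : B = ∅ := Finset.eq_empty_of_forall_notMem fun i hi => Nat.not_lt_zero _ (hB i hi)
    simp [this, act_one]
  | succ N ih =>
    have hinv : ∀ x, (∏ i ∈ B.erase N, F i) (x + ee N) = (∏ i ∈ B.erase N, F i) x := by
      intro x
      rw [ContinuousMap.prod_apply, ContinuousMap.prod_apply]
      refine Finset.prod_congr rfl fun i hi => ?_
      exact (hF i (Finset.mem_of_mem_erase hi)).inv
        (by simpa using (Finset.ne_of_mem_erase hi).symm) x
    have ih' := ih (B.erase N) (fun i hi => lt_of_le_of_ne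
      (Nat.lt_succ_iff.1 (hB i (Finset.mem_of_mem_erase hi))) (Finset.ne_of_mem_erase hi))
      (fun i hi => hF i (Finset.mem_of_mem_erase hi))
    rw [Finset.prod_range_succ, act_mul]
    by_cases hN : N ∈ B
    · rw [← Finset.mul_prod_erase B F hN, (hl N).1 _ _ hinv, mul_comm, act_prod_mul hl N, ih',
        ← Finset.mul_prod_erase B (fun i => act (u i) (F i)) hN, mul_comm]
      intro i hi x
      exact ((hF N hN).act (u N)).inv (by simpa using hi.ne) x
    · rw [Finset.erase_eq_of_notMem hN] at hinv ih'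
      rw [(hl N).fix hinv, ih']

lemma tensor (N : ℕ) (m : C(GG, ℂ)) :
    ‖act (∏ i ∈ Finset.range N, ww (ee i)) (sqf (act (∏ i ∈ Finset.range N, kk (ee i)) m))‖ ≤
      ‖sqf m‖ := by
  induction N with
  | zero => simp [act_one]
  | succ N ih =>
    refine (ContinuousMap.norm_le _ (norm_nonneg _)).2 fun x => ?_
    rw [Finset.prod_range_succ, Finset.prod_range_succ, act_mul, mul_comm _ (kk (ee N)), act_mul]
    refine (Dom.prod (Finset.range N) (fun i => dom_ww (ee i)) _ _
      (less_noisy (ee N) _) x).trans ?_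
    rw [← act_mul, mul_comm, act_mul]
    refine (Complex.re_le_norm _).trans ((ContinuousMap.norm_coe_le_norm _ x).trans ?_)
    refine (norm_act_le _ _).trans ?_
    exact (mul_le_of_le_one_left (norm_nonneg _) (norm_vv_le _)).trans ih

end Pool.Agent.H.Cortex
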