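import Pool.Agent.H.MP_4cde56_an.One

/-! Weighted estimates: the noisier channel is not degraded. -/

namespace Pool.Agent.H.Cortex

open Filter Topology

variable {G : Type} [AddCommGroup G] [TopologicalSpace G] [IsTopologicalAddGroup G]
  [CompactSpace G] [T2Space G] [TotallyDisconnectedSpace G]

/-- real function as a complex one -/
noncomputable def ofR (f : C(G, ℝ)) : C(G, ℂ) := ⟨fun x => (f x : ℂ), by fun_prop⟩

omit [AddCommGroup G] [IsTopologicalAddGroup G] [CompactSpace G] [T2Space G]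
  [TotallyDisconnectedSpace G] in
@[simp] lemma ofR_apply (f : C(G, ℝ)) (x : G) : ofR f x = (f x : ℂ) := rfl

section
variable (e : G) (D : C(G, ℝ)) (hD0 : ∀ x, 0 ≤ D x) (hD : ∀ x, D (x + e) ≤ 5 / 2 * D x)
include hD

lemma wb_rr (g : C(G, ℂ)) (t : ℝ) (ht : 0 ≤ t) (H : ∀ x, ‖g x‖ ≤ t * D x) (x : G) :
    ‖act (rr (1 / 3) e) g x‖ ≤ 6 * t * D x := by
  have := pos_principle (Z := fun x => 6 * t * D x - ‖act (rr (1 / 3) e) g x‖)
    (by fun_prop) (a := 1 / 3) (by norm_num) (by norm_num) e (fun x => by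
      have h2 := rr_spec h13 e g x
      have h3 : ‖act (rr (1 / 3) e) g x‖ ≤ ‖g x‖ + 1 / 3 * ‖act (rr (1 / 3) e) g (x + e)‖ := by
        rw [h2]
        refine (norm_add_le _ _).trans ?_
        rw [norm_mul, Complex.norm_real, Real.norm_eq_abs, abs_of_pos (by norm_num)]
      have := H x
      have := mul_le_mul_of_nonneg_left (hD x) ht
      linarith) x
  linarith

lemma wb_vv (g : C(G, ℂ)) (t : ℝ) (ht : 0 ≤ t) (H : ∀ x, ‖g x‖ ≤ t * D x) (x : G) :
    ‖act (vv e) g x‖ ≤ 11 / 2 * t * D x := by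
  rw [vv_apply]
  refine (norm_add_le _ _).trans ?_
  have h1 := H x
  have h2 := wb_rr e D hD g t ht H (x + e)
  have := mul_le_mul_of_nonneg_left (hD x) ht
  simp only [norm_mul, norm_div, Complex.norm_ofNat, norm_one]
  linarith

include hD0 in
lemma wb_pow (n : ℕ) (x : G) : ‖act (vv e ^ n) (ofR D) x‖ ≤ 7 ^ n * D x := by
  induction n generalizing x with
  | zero => simp [act_one, abs_of_nonneg (hD0 x)]
  | succ n ih =>
    rw [pow_succ', act_mul]
    refine (wb_vv e D hD _ _ (by positivity) ih x).trans ?_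
    have : 0 ≤ 7 ^ n * D x := mul_nonneg (by positivity) (hD0 x)
    rw [pow_succ]; nlinarith

variable (φ : C(G, ℝ)) (η : ℝ) (hη : 0 ≤ η) (hφ : ∀ x, |φ (x + e) + 2 * φ x| ≤ η * D x)
include hη hφ

lemma eig_one (x : G) : ‖act (vv e) (ofR φ) x - 1 / 10 * φ x‖ ≤ 6 / 5 * η * D x := by
  set err : C(G, ℂ) := ⟨fun x => 1 / 5 * ((φ (x + e) + 2 * φ x : ℝ) : ℂ), by fun_prop⟩ with herr
  have hb : ∀ x, ‖err x‖ ≤ (η / 5) * D x := fun x => by
    change ‖1 / 5 * ((φ (x + e) + 2 * φ x : ℝ) : ℂ)‖ ≤ _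
    rw [norm_mul, Complex.norm_real, Real.norm_eq_abs]
    have := hφ x
    norm_num
    linarith
  have hZ : act (rr (1 / 3) e) err = act (rr (1 / 3) e) (ofR φ) - (3 / 5 : ℂ) • ofR φ := by
    refine rr_uniq h13 e _ _ fun x => ?_
    simp only [ContinuousMap.sub_apply, ContinuousMap.smul_apply, smul_eq_mul, ofR_apply]
    rw [rr_spec h13 e (ofR φ) x]
    change _ = 1 / 5 * ((φ (x + e) + 2 * φ x : ℝ) : ℂ) + _
    simp only [ofR_apply]
    push_cast; ring
  have h2 := wb_rr e D hD err (η / 5) (by positivity) hb (x + e)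
  have h3 : act (vv e) (ofR φ) x - 1 / 10 * φ x =
      err x + 1 / 3 * act (rr (1 / 3) e) err (x + e) := by
    rw [vv_apply, hZ]
    change _ = 1 / 5 * ((φ (x + e) + 2 * φ x : ℝ) : ℂ) + _
    simp only [ContinuousMap.sub_apply, ContinuousMap.smul_apply, smul_eq_mul, ofR_apply]
    push_cast; ring
  rw [h3]
  refine (norm_add_le _ _).trans ?_
  have := hb x
  have := mul_le_mul_of_nonneg_left (hD x) hη
  simp only [norm_mul, norm_div, Complex.norm_ofNat, norm_one]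
  linarith

include hD0 in
lemma eig_pow (n : ℕ) (x : G) :
    ‖act (vv e ^ n) (ofR φ) x - (1 / 10) ^ n * φ x‖ ≤ 7 ^ n * η * D x := by
  induction n generalizing x with
  | zero => simp [act_one, mul_nonneg hη (hD0 x)]
  | succ n ih =>
    set E : C(G, ℂ) := act (vv e ^ n) (ofR φ) - ((1 / 10 : ℂ) ^ n) • ofR φ with hE
    have h1 := wb_vv e D hD E (7 ^ n * η) (by positivity) (fun x => ih x) x
    have h2 := eig_one e D hD φ η hη hφ x
    have h3 : act (vv e ^ (n + 1)) (ofR φ) x - (1 / 10) ^ (n + 1) * φ x =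
        act (vv e) E x + (1 / 10) ^ n * (act (vv e) (ofR φ) x - 1 / 10 * φ x) := by
      rw [pow_succ', act_mul, hE, act_sub', act_smul']
      simp only [ContinuousMap.sub_apply, ContinuousMap.smul_apply, smul_eq_mul]
      ring
    rw [h3]
    refine (norm_add_le _ _).trans ?_
    rw [norm_mul, norm_pow]
    have h4 : ‖(1 / 10 : ℂ)‖ ^ n ≤ 1 := pow_le_one₀ (norm_nonneg _) (by norm_num)
    have h5 : (1 : ℝ) ≤ 7 ^ n := one_le_pow₀ (by norm_num)
    have h6 : 0 ≤ η * D x := mul_nonneg hη (hD0 x)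
    have h7 : ‖(1 / 10 : ℂ)‖ ^ n * ‖act (vv e) (ofR φ) x - 1 / 10 * φ x‖ ≤ 6 / 5 * η * D x :=
      (mul_le_of_le_one_left (norm_nonneg _) h4).trans h2
    rw [pow_succ]
    nlinarith

include hD0 in
lemma letter (n : ℕ) (K c : ℝ) (hφ0 : φ 0 = 1) (hD1 : D 0 = 1)
    (hK : ∀ x, |φ x - η * D x| ≤ K) (hK1 : 1 ≤ K) (hc : c ≤ (1 / 10) ^ n - 2 * 7 ^ n * η)
    (hc0 : 0 < c) (hc1 : c ≤ 1) :
    ∃ P Pi : C(G, ℝ), (∀ x y, φ x = φ y → D x = D y → P x = P y) ∧ (∀ x, 0 < P x) ∧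
      (∀ x, Pi x = (P x)⁻¹) ∧ (∀ x, ‖act (ww e) (ofR P) x‖ ≤ 1) ∧
      ‖act (vv e ^ n) (ofR Pi) 0‖ ≤ 1 - c ^ 2 / (8 * K ^ 2) := by
  set s := c / (4 * K ^ 2) with hs
  have hs0 : 0 < s := by positivity
  have hsK : s * K ≤ 1 / 2 := by
    rw [hs, div_mul_eq_mul_div, div_le_iff₀ (by positivity)]; nlinarith
  set F : C(G, ℝ) := ⟨fun x => φ x - η * D x, by fun_prop⟩ with hF
  have hFa : ∀ x, F x = φ x - η * D x := fun x => rfl
  have hsF : ∀ x, |s * F x| ≤ s * K := fun x => by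
    rw [abs_mul, abs_of_pos hs0]; exact mul_le_mul_of_nonneg_left (hK x) hs0.le
  have hP : ∀ x, 1 / 2 ≤ 1 + s * F x := fun x => by
    have := (abs_le.1 (hsF x)).1; linarith
  refine ⟨⟨fun x => 1 + s * F x, by fun_prop⟩, ⟨fun x => (1 + s * F x)⁻¹,
    Continuous.inv₀ (by fun_prop) fun x => by have := hP x; linarith⟩, ?_, ?_, fun x => rfl, ?_, ?_⟩
  · intro x y h1 h2
    change 1 + s * F x = 1 + s * F y
    rw [hFa, hFa, h1, h2]
  · intro x
    change 0 < 1 + s * F x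
    have := hP x; linarith
  · intro x
    rw [ww_apply]
    change ‖2 / 3 * ((1 + s * F x : ℝ) : ℂ) + 1 / 3 * ((1 + s * F (x + e) : ℝ) : ℂ)‖ ≤ 1
    have : (2 / 3 * ((1 + s * F x : ℝ) : ℂ) + 1 / 3 * ((1 + s * F (x + e) : ℝ) : ℂ)) =
        ((2 / 3 * (1 + s * F x) + 1 / 3 * (1 + s * F (x + e)) : ℝ) : ℂ) := by push_cast; ring
    rw [this, Complex.norm_real, Real.norm_eq_abs, abs_le]
    have h1 := hP x
    have h2 := hP (x + e)
    refine ⟨by linarith, ?_⟩
    have h3 := (abs_le.1 (hφ x)).2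
    have h4 := mul_nonneg hη (hD0 x)
    have h5 := mul_nonneg hη (hD0 (x + e))
    have h6 : 2 * F x + F (x + e) ≤ 0 := by rw [hFa, hFa]; linarith
    nlinarith
  · have hd := (dom_vv e).pow n
      (ofR ⟨fun x => (1 + s * F x)⁻¹,
        Continuous.inv₀ (by fun_prop) fun x => by have := hP x; linarith⟩)
      (((1 + 2 * (s * K) ^ 2 : ℝ) : ℂ) • 1 - (s : ℂ) • (ofR φ - (η : ℂ) • ofR D)) (fun y => by
        change ‖(((1 + s * F y)⁻¹ : ℝ) : ℂ)‖ ≤ _
        have h1 := hP y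
        rw [Complex.norm_real, Real.norm_eq_abs, abs_of_pos (by positivity)]
        simp only [ContinuousMap.sub_apply, ContinuousMap.smul_apply, smul_eq_mul, ofR_apply,
          ContinuousMap.one_apply, mul_one, Complex.sub_re, Complex.ofReal_re, Complex.mul_re,
          Complex.ofReal_im, Complex.sub_im, Complex.mul_im]
        rw [inv_le_iff_one_le_mul₀ (by positivity)]
        have h2 : (s * F y) ^ 2 ≤ (s * K) ^ 2 := sq_le_sq' (abs_le.1 (hsF y)).1 (abs_le.1 (hsF y)).2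
        have h3 : s * (φ y - (η * D y - 0 * 0)) - 0 * (0 - (η * 0 + 0 * D y)) = s * F y := by
          rw [hFa]; ring
        rw [h3]
        nlinarith [sq_nonneg (s * K)]) 0
    refine hd.trans ?_
    have h1 : act (vv e ^ n) (1 : C(G, ℂ)) = 1 := by
      clear hd hc
      induction n with
      | zero => rw [pow_zero, act_one]
      | succ n ih => rw [pow_succ, act_mul, (loc_vv e).2, ih]
    rw [act_sub', act_smul', act_smul', act_sub', act_smul', h1]
    have h2 := eig_pow e D hD0 hD φ η hη hφ n 0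
    have h3 := wb_pow e D hD0 hD n 0
    rw [hφ0, hD1] at h2
    rw [hD1] at h3
    have h4 := (abs_le.1 ((Complex.abs_re_le_norm _).trans h2)).1
    have h5 := (abs_le.1 ((Complex.abs_re_le_norm _).trans h3)).2
    have h6 : ((1 / 10 : ℂ) ^ n * ((1 : ℝ) : ℂ)) = (((1 / 10 : ℝ) ^ n : ℝ) : ℂ) := by push_cast; ring
    rw [h6] at h4
    simp only [ContinuousMap.sub_apply, ContinuousMap.smul_apply, smul_eq_mul,
      ContinuousMap.one_apply, mul_one, Complex.sub_re, Complex.ofReal_re, Complex.mul_re,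
      Complex.ofReal_im, Complex.sub_im, Complex.mul_im, zero_mul, sub_zero] at h4 h5 ⊢
    have h7 := mul_le_mul_of_nonneg_left h5 hη
    have h8 : c ≤ (act (vv e ^ n) (ofR φ) 0).re - η * (act (vv e ^ n) (ofR D) 0).re := by
      linarith
    have h9 := mul_le_mul_of_nonneg_left h8 hs0.le
    have h10 : 2 * (s * K) ^ 2 - s * c = - (c ^ 2 / (8 * K ^ 2)) := by
      rw [hs]; field_simp; ring
    linarith

end

end Pool.Agent.H.Cortex
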